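import Mathlib
import Pool.Agent.TH269.ET.Defs
import Pool.Agent.TH269.ET.Sim

/-!
# Three rewritten letters per table suffice for every ET0L language

For every ET0L system `G` with terminal alphabet `T` there is an ET0L system with the same
terminal alphabet and the same language in which every table rewrites at most three letters.
Consequently the hierarchy of the `k`-restricted ET0L languages is constant from `k = 3` on:
`ℓ ≤ 3` (the known bound was `ℓ ≤ 8`), and with the known `ℓ ≥ 2` the threshold `ℓ` is 2 or 3.

Idea of the proof: the state of a finite control is the *missing* one among finitely many control
letters.  The table for a transition from the state `q` to the state `q'` which handles the data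
letter `c` sends the control letter of `q` (absent in the state `q`) to a dead letter, the control
letter of `q'` to that of `q`, and rewrites `c`.
-/

namespace Pool.Agent.Results.MP_4de4a9_lc.ThreeLetters

open Pool.Agent.TH269.ET

/-- Every ET0L language is generated by a 3-restricted ET0L system with the same terminal
alphabet, and the families of the `k`-restricted ET0L languages agree for all `k ≥ 3`. -/
theorem result :
    (∀ (T : Type) (G : Sys T), ∃ G' : Sys T, Restricted 3 G' ∧ lang G' = lang G) ∧
    ∀ (T : Type) (k : ℕ), 3 ≤ k → Fam T k = Fam T (k + 1) := by
  refine ⟨fun T G => ?_, fun T k hk => main k hk⟩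
  obtain ⟨G', h1, h2⟩ := lang_mem_fam3 G
  exact ⟨G', h1, h2.symm⟩

end Pool.Agent.Results.MP_4de4a9_lc.ThreeLetters
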